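import Pool.Agent.MP_14ad9d_nt.R.Top

set_option autoImplicit false

open AlgebraicGeometry CategoryTheory NumberField

namespace Pool.Agent.Results.MP_14ad9d_nt.Proper

/-- every number field admits a proper scheme over the integers with infinitely many integer
points and no new points over the ring of integers and over the field itself -/
theorem result :
    ∀ (K : Type) [Field K] [NumberField K],
      ∃ (X : Scheme.{0}) (f : X ⟶ Spec (CommRingCat.of ℤ)),
        IsProper f ∧
        Infinite (Spec (CommRingCat.of ℤ) ⟶ X) ∧
        Function.Bijective (fun g : Spec (CommRingCat.of ℤ) ⟶ X =>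
          Spec.map (CommRingCat.ofHom (algebraMap ℤ (𝓞 K))) ≫ g) ∧
        Function.Bijective (fun g : Spec (CommRingCat.of ℤ) ⟶ X =>
          Spec.map (CommRingCat.ofHom (algebraMap ℤ K)) ≫ g) :=
  fun K _ _ => Pool.Agent.MP_14ad9d_nt.Full.R.top K

end Pool.Agent.Results.MP_14ad9d_nt.Proper
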